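import Pool.Agent.H77.Kd.Main

set_option autoImplicit false

/-!
# The crossing number of the knot-type knotoid of a knot is the crossing number of the knot

The definitions are in `Pool.Agent.H77.Kd.Defs`.

Idea of the proof. Let `E` be a diagram on the sphere of a knotoid `K`, and lift it to the universal
cover (a plane) of the sphere without the tail and the head. One of the lifts of the arc is the
diagram of a long knot in this plane. Its crossings are the crossings of `E` of index zero, i.e.
those crossings for which the loop of the curve at the crossing does not separate the tail from the
head algebraically. A Reidemeister move of `E` away from the end points induces a Reidemeister move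
of the lift or does not change it. So the closure of the lift is a knot which depends on `K` only.
If `K` is obtained from a diagram of the knot `k` by removing a small arc, this knot is `k`. Hence
every diagram of `K` has at least as many crossings as some diagram of `k`.
-/

namespace Pool.Agent.Results.MP_19d426_gt.CrossingNumber

open Pool.Agent.H77.Kd

/-- Let `k` be a knot. (1), (2): the crossing number of the knot-type knotoid `k•` is the crossing
number of `k`. Here `IsBullet k K` says that the knotoid `K` has a diagram which is obtained from a
diagram of `k` by removing a small arc. (`K` is determined by `k`, by a theorem of Turaev; the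
inequality (2) holds for every such `K` and does not depend on this theorem.)
(3): a diagram of `k•` with the smallest possible number of crossings has height zero. -/
theorem result (k : Knot) :
    (∃ K : Knotoid, IsBullet k K ∧ K.cr = k.cr) ∧
    (∀ K : Knotoid, IsBullet k K → k.cr ≤ K.cr) ∧
    (∀ (K : Knotoid) (E : KnotoidDiagram), IsBullet k K → IsKnotoidDiagramOf E K →
      crossings E.code = k.cr → HeightZero E) := by
  have h2 : ∀ K : Knotoid, IsBullet k K → k.cr ≤ K.cr := by
    intro K hK
    obtain ⟨E, hE, hc⟩ := exists_cr' K
    rw [← hc]
    exact le_crossings hK hE
  refine ⟨?_, h2, fun K E hK hE hc => heightZero hK hE hc.le⟩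
  obtain ⟨D, hD, hc⟩ := exists_cr k
  have hK : IsBullet k (Quot.mk _ D.cut) := ⟨D, D.cut, hD, rfl, rfl⟩
  refine ⟨_, hK, le_antisymm ?_ (h2 _ hK)⟩
  rw [← hc]
  exact cr_le' (E := D.cut) rfl

end Pool.Agent.Results.MP_19d426_gt.CrossingNumber
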